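import Pool.Agent.N228.AZ.Stm
import Pool.Agent.H749R2.Hyp1

/-!
# Project AZ: the area of the main hyperbolic component
-/

set_option autoImplicit false
open Metric MeasureTheory Set Filter Topology

namespace Pool.Agent.N72.AZMain

open Pool.Agent.W747.MB Pool.Agent.N228.AZ

lemma pow_exp {n : ℕ} (hn : 2 ≤ n) (x : ℝ) : Real.exp (-(x / ((n : ℝ) - 1))) ^ (n - 1) = Real.exp (-x) := by
  have h1 : ((n - 1 : ℕ) : ℝ) = (n : ℝ) - 1 := by
    rw [Nat.cast_sub (by omega), Nat.cast_one]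
  have h2 : (0 : ℝ) < (n : ℝ) - 1 := by
    have : (2 : ℝ) ≤ n := by exact_mod_cast hn
    linarith
  rw [← Real.exp_nat_mul, h1]
  congr 1
  field_simp

lemma inner {n : ℕ} (hn : 2 ≤ n) : ball (0 : ℂ) (Real.exp (-((Real.log n + 1) / ((n : ℝ) - 1)))) ⊆
    {c : ℂ | ∃ z, N62a1eb23.IsAttractingCycle (f n c) 1 z} := by
  intro c hc
  rw [mem_ball_zero_iff] at hc
  have hn0 : (0 : ℝ) < n := by exact_mod_cast (show 0 < n by omega)
  refine Pool.Agent.H749R2.Hyp.P1 hn ?_
  have h1 : ‖c‖ ^ (n - 1) ≤ Real.exp (-(Real.log n + 1)) := by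
    rw [← pow_exp hn]
    exact pow_le_pow_left₀ (norm_nonneg c) hc.le _
  have h2 : Real.exp 1 * (n * Real.exp (-(Real.log n + 1))) = 1 := by
    have h3 : (n : ℝ) = Real.exp (Real.log n) := (Real.exp_log hn0).symm
    calc Real.exp 1 * (n * Real.exp (-(Real.log n + 1))) =
        Real.exp 1 * (Real.exp (Real.log n) * Real.exp (-(Real.log n + 1))) := by rw [← h3]
      _ = 1 := by
        rw [← Real.exp_add, ← Real.exp_add, ← Real.exp_zero]
        congr 1
        ring
  calc Real.exp 1 * (n * ‖c‖ ^ (n - 1)) ≤ Real.exp 1 * (n * Real.exp (-(Real.log n + 1))) := by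
        gcongr
    _ ≤ 1 := h2.le

lemma outer {n : ℕ} (hn : 2 ≤ n) : {c : ℂ | ∃ z, N62a1eb23.IsAttractingCycle (f n c) 1 z} ⊆
    closedBall (0 : ℂ) (Real.exp (-(Real.log n / ((n : ℝ) - 1))) * (1 + 1 / n)) := by
  rintro c ⟨z, -, hz1, -, hz2⟩
  have hn0 : (0 : ℝ) < n := by exact_mod_cast (show 0 < n by omega)
  rw [Function.iterate_one] at hz2
  have hd : deriv (f n c) z = n * z ^ (n - 1) := by
    have := (hasDerivAt_pow n z).add_const c
    exact this.deriv
  rw [hd, norm_mul, norm_pow, Complex.norm_natCast] at hz2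
  have hfix : z ^ n + c = z := hz1
  set R := Real.exp (-(Real.log n / ((n : ℝ) - 1))) with hR
  have hR1 : n * R ^ (n - 1) = 1 := by
    rw [hR, pow_exp hn, Real.exp_neg, Real.exp_log hn0, mul_inv_cancel₀ hn0.ne']
  have hzR : ‖z‖ ≤ R := by
    by_contra hcon
    push Not at hcon
    have h1 : R ^ (n - 1) ≤ ‖z‖ ^ (n - 1) := pow_le_pow_left₀ (Real.exp_pos _).le hcon.le _
    have h2 : n * R ^ (n - 1) ≤ n * ‖z‖ ^ (n - 1) := by gcongr
    linarith
  have hz3 : ‖z‖ ^ (n - 1) ≤ 1 / n := by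
    rw [le_div_iff₀ hn0]
    linarith
  rw [mem_closedBall_zero_iff]
  have hc : c = z - z ^ n := by linear_combination hfix
  have hzn : ‖z ^ n‖ = ‖z‖ * ‖z‖ ^ (n - 1) := by
    rw [norm_pow, ← pow_succ']
    congr 1
    omega
  calc ‖c‖ ≤ ‖z‖ + ‖z ^ n‖ := by
        rw [hc]
        exact norm_sub_le _ _
    _ = ‖z‖ * (1 + ‖z‖ ^ (n - 1)) := by rw [hzn]; ring
    _ ≤ R * (1 + 1 / n) := by gcongr

lemma vol_ball (r : ℝ) (hr : 0 ≤ r) : volume (ball (0 : ℂ) r) = ENNReal.ofReal (Real.pi * r ^ 2) := by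
  rw [Complex.volume_ball, ENNReal.ofReal_mul Real.pi_pos.le, ENNReal.ofReal_pow hr, mul_comm]
  congr 1
  rw [ENNReal.ofReal, Real.toNNReal_of_nonneg Real.pi_pos.le]
  rfl

lemma vol_cball (r : ℝ) (hr : 0 ≤ r) : volume (closedBall (0 : ℂ) r) = ENNReal.ofReal (Real.pi * r ^ 2) := by
  rw [Complex.volume_closedBall, ENNReal.ofReal_mul Real.pi_pos.le, ENNReal.ofReal_pow hr, mul_comm]
  congr 1
  rw [ENNReal.ofReal, Real.toNNReal_of_nonneg Real.pi_pos.le]
  rfl

theorem main : P_MAIN := by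
  intro ε hε
  have hlog : Tendsto (fun n : ℕ => Real.log n) atTop atTop :=
    Real.tendsto_log_atTop.comp tendsto_natCast_atTop_atTop
  have hlogn : Tendsto (fun n : ℕ => Real.log n / n) atTop (𝓝 0) := by
    have h1 : Tendsto (fun x : ℝ => Real.log x / x) atTop (𝓝 0) := by
      have := Real.isLittleO_log_id_atTop.tendsto_div_nhds_zero
      simpa using this
    exact h1.comp tendsto_natCast_atTop_atTop
  have hδ : 0 < min (ε / 8) (1 / 2) := lt_min (by positivity) (by norm_num)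
  filter_upwards [eventually_ge_atTop 2, hlog.eventually (eventually_ge_atTop (6 / ε)),
    (tendsto_natCast_atTop_atTop (R := ℝ)).eventually (eventually_ge_atTop (2 * (2 + ε) / ε)),
    hlogn.eventually (gt_mem_nhds hδ)] with n hn hl1 hn2 hl2
  have hn0 : (0 : ℝ) < n := by exact_mod_cast (show 0 < n by omega)
  have hn1 : (0 : ℝ) < (n : ℝ) - 1 := by
    have : (2 : ℝ) ≤ n := by exact_mod_cast hn
    linarith
  set l : ℝ := Real.log n with hl
  have hl0 : 0 < l := lt_of_lt_of_le (by positivity) hl1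
  rw [div_le_iff₀ hε] at hl1 hn2
  have hl3 : l / n ≤ ε / 8 := hl2.le.trans (min_le_left _ _)
  have hl4 : l / n ≤ 1 / 2 := hl2.le.trans (min_le_right _ _)
  have hln0 : 0 ≤ l / n := by positivity
  constructor
  · refine le_trans ?_ (measure_mono (inner hn))
    rw [vol_ball _ (Real.exp_pos _).le]
    apply ENNReal.ofReal_le_ofReal
    apply mul_le_mul_of_nonneg_left _ Real.pi_pos.le
    rw [← Real.exp_nat_mul]
    have h1 := Real.add_one_le_exp (((2 : ℕ) : ℝ) * -((l + 1) / ((n : ℝ) - 1)))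
    refine le_trans ?_ h1
    have h2 : 2 * ((l + 1) / ((n : ℝ) - 1)) ≤ (2 + ε) * l / n := by
      rw [← mul_div_assoc, div_le_div_iff₀ hn1 hn0]
      nlinarith
    push_cast
    linarith
  · refine le_trans (measure_mono (outer hn)) ?_
    rw [vol_cball _ (by positivity)]
    apply ENNReal.ofReal_le_ofReal
    apply mul_le_mul_of_nonneg_left _ Real.pi_pos.le
    set y : ℝ := 2 * (l / n) with hy
    have hy0 : 0 ≤ y := by positivity
    have hy1 : y ≤ 1 := by linarith
    have h1 : Real.exp (-(l / ((n : ℝ) - 1))) ^ 2 ≤ 1 - y + y ^ 2 := by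
      rw [← Real.exp_nat_mul]
      have h2 : ((2 : ℕ) : ℝ) * -(l / ((n : ℝ) - 1)) ≤ -y := by
        have h3 : l / n ≤ l / ((n : ℝ) - 1) := by
          apply div_le_div_of_nonneg_left hl0.le hn1
          linarith
        push_cast
        linarith
      have h3 := Real.abs_exp_sub_one_sub_id_le (x := -y) (by rw [abs_neg, abs_of_nonneg hy0]; exact hy1)
      have h4 := (abs_le.1 h3).2
      have h5 := Real.exp_le_exp.2 h2
      nlinarith
    have h2 : (1 + 1 / (n : ℝ)) ^ 2 ≤ 1 + 3 / n := by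
      have h3 : 1 / (n : ℝ) ≤ 1 := by
        rw [div_le_one hn0]
        have : (2 : ℝ) ≤ n := by exact_mod_cast hn
        linarith
      have h4 : 0 ≤ 1 / (n : ℝ) := by positivity
      have h5 : 3 / (n : ℝ) = 3 * (1 / n) := by ring
      rw [h5]
      nlinarith
    have h3 : 3 / (n : ℝ) ≤ ε / 2 * (l / n) := by
      rw [← mul_div_assoc]
      apply div_le_div_of_nonneg_right _ hn0.le
      linarith
    have h4 : y ^ 2 ≤ ε / 2 * (l / n) := by
      rw [hy]
      nlinarith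
    have h6 : 0 ≤ 3 / (n : ℝ) := by positivity
    have h7 : (0 : ℝ) ≤ 1 - y + y ^ 2 := by nlinarith
    have h8 : 1 - y + y ^ 2 ≤ 1 := by nlinarith
    calc (Real.exp (-(l / ((n : ℝ) - 1))) * (1 + 1 / n)) ^ 2 =
          Real.exp (-(l / ((n : ℝ) - 1))) ^ 2 * (1 + 1 / (n : ℝ)) ^ 2 := mul_pow _ _ _
      _ ≤ (1 - y + y ^ 2) * (1 + 3 / n) := by gcongr
      _ ≤ 1 - y + y ^ 2 + 3 / n := by nlinarith
      _ ≤ 1 - (2 - ε) * l / n := by
          have h9 : (2 - ε) * l / n = y - ε * (l / n) := by rw [hy]; ring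
          rw [h9]
          linarith

end Pool.Agent.N72.AZMain
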